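import Pool.Agent.DIF.Stmts
import Pool.Agent.Helper88_FLX.Slice

/-!
# Squad DIF, row LTW: convergence in the mean of the compositions
-/

set_option autoImplicit false

open scoped InnerProductSpace Topology ContDiff Manifold
open MeasureTheory Filter Set

noncomputable section

namespace Pool.Agent.DIF.H69

open Pool.Agent.Helper42_Paneitz Pool.Agent.Helper82_Vir Pool.Agent.FLX

theorem mu_singleton (c : ℝ) : Pool.Agent.FLX.H88.mu {c} = 0 := by
  have h1 : Pool.Agent.FLX.H88.mu ≪ volume :=
    (withDensity_absolutelyContinuous _ _).trans Measure.restrict_le_self.absolutelyContinuous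
  exact h1 (measure_singleton c)

/-- the level sets of the coordinate functions are null sets -/
theorem ae_inner_ne (v : E5) (hv : ‖v‖ = 1) (c : ℝ) : ∀ᵐ y : S4 ∂sig, ⟪v, (y : E5)⟫_ℝ ≠ c := by
  have hx : v ∈ Metric.sphere (0 : E5) 1 := mem_sphere_zero_iff_norm.2 hv
  have hin : Continuous fun y : S4 => ⟪v, (y : E5)⟫_ℝ :=
    continuous_const.inner continuous_subtype_val
  have h1 := mu_singleton c
  rw [← Pool.Agent.FLX.H88.map_inner ⟨v, hx⟩,
    Measure.map_apply hin.measurable (measurableSet_singleton c)] at h1
  rw [ae_iff]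
  refine le_antisymm (le_trans (measure_mono ?_) h1.le) zero_le
  intro y hy
  simp only [ne_eq, not_not, mem_setOf_eq] at hy
  exact hy

theorem continuous_of_dif {φ : S4 → S4} (h : Dif φ) : Continuous φ := by
  obtain ⟨ψ, hψ⟩ := h
  have : φ = ψ := funext fun x => (hψ x).symm
  rw [this]
  exact ψ.continuous

theorem isOpen_AA (p n : E5) : IsOpen (AA p n) := by
  have hp : Continuous fun y : S4 => ⟪p, (y : E5)⟫_ℝ :=
    continuous_const.inner continuous_subtype_val
  have hn : Continuous fun y : S4 => ⟪n, (y : E5)⟫_ℝ :=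
    continuous_const.inner continuous_subtype_val
  have h1 := (isOpen_lt continuous_const hn (f := fun _ => (0:ℝ))).inter
    (isOpen_lt continuous_const hp (f := fun _ => (9/10:ℝ)))
  have h2 := (isOpen_lt hn continuous_const (g := fun _ => (0:ℝ))).inter
    (isOpen_lt hp continuous_const (g := fun _ => (-(9/10):ℝ)))
  exact h1.union h2

theorem measurable_ind (p n : E5) : Measurable (ind p n) := by
  classical
  unfold ind
  exact Measurable.ite (isOpen_AA p n).measurableSet measurable_const measurable_const

/-- row LTW -/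
theorem ltw (lim : LimStmt) (smo : SmoStmt) (dmb : DmbStmt) (dpr : DprStmt) (drs : DrsStmt) :
    LtwStmt := by
  intro p q n hp hq hn hpq hpn hqn P N hP hN Q hQ
  have hphi : ∀ k : ℕ, Continuous (phi p q n k) := by
    intro k
    have hb : ‖(9 / 10 : ℝ) • p‖ < 1 := by
      rw [norm_smul, hp]
      norm_num
    have h1 := (drs p q n k hp hq hpq hpn hqn).1
    have h2 := dmb (-((9 / 10 : ℝ) • p)) (by rw [norm_neg]; exact hb)
    have h3 := (dpr p (k + 1) hp (by positivity)).1
    have h4 := dmb ((9 / 10 : ℝ) • p) hb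
    exact (continuous_of_dif h4).comp ((continuous_of_dif h3).comp
      ((continuous_of_dif h2).comp (continuous_of_dif h1)))
  obtain ⟨B, hB⟩ : ∃ B : ℝ, ∀ x, |Q x| ≤ B := by
    obtain ⟨B, hB⟩ := (isCompact_range hQ.abs).bddAbove
    exact ⟨B, fun x => hB ⟨x, rfl⟩⟩
  have hB0 : 0 ≤ B := (abs_nonneg _).trans (hB P)
  have key : Tendsto (fun k : ℕ => ∫ x : S4,
      (Q (phi p q n k x) - Q N - (Q P - Q N) * ind p n x) ^ 2 ∂sig) atTop
      (𝓝 (∫ _ : S4, (0:ℝ) ∂sig)) := by
    refine tendsto_integral_of_dominated_convergence (fun _ => (4 * B) ^ 2) ?_ ?_ ?_ ?_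
    · intro k
      have h1 : Measurable fun x : S4 => Q (phi p q n k x) := (hQ.comp (hphi k)).measurable
      exact (((h1.sub_const _).sub ((measurable_ind p n).const_mul _)).pow_const
        2).aestronglyMeasurable
    · exact integrable_const _
    · intro k
      refine Eventually.of_forall fun x => ?_
      rw [Real.norm_eq_abs, abs_pow]
      refine pow_le_pow_left₀ (abs_nonneg _) ?_ 2
      have h1 := hB (phi p q n k x)
      have h2 := hB N
      have h3 := hB P
      have h4 : |(Q P - Q N) * ind p n x| ≤ 2 * B := by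
        rw [abs_mul]
        have h5 : |ind p n x| ≤ 1 := by
          unfold ind
          split_ifs <;> simp
        have h6 : |Q P - Q N| ≤ 2 * B := by
          rw [abs_le] at h2 h3 ⊢
          constructor <;> linarith [h2.1, h2.2, h3.1, h3.2]
        calc |Q P - Q N| * |ind p n x| ≤ (2 * B) * 1 :=
              mul_le_mul h6 h5 (abs_nonneg _) (by linarith)
          _ = 2 * B := mul_one _
      rw [abs_le] at h1 h2 h4 ⊢
      constructor <;> linarith [h1.1, h1.2, h2.1, h2.2, h4.1, h4.2]
    · filter_upwards [ae_inner_ne n hn 0, ae_inner_ne p hp (9 / 10),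
        ae_inner_ne p hp (-(9 / 10))] with x h1 h2 h3
      obtain ⟨l1, l2⟩ := lim p q n hp hq hn hpq hpn hqn P N hP hN x h1 h2 h3
      by_cases hx : x ∈ AA p n
      · have h4 : ind p n x = 1 := by
          unfold ind
          rw [if_pos hx]
        have h5 := (hQ.tendsto P).comp (l1 hx)
        have h6 := ((h5.sub_const (Q N)).sub_const ((Q P - Q N) * ind p n x)).pow 2
        rw [h4] at h6
        have h7 : (Q P - Q N - (Q P - Q N) * 1) ^ 2 = 0 := by ring
        rw [h7] at h6
        rw [h4]
        exact h6
      · have h4 : ind p n x = 0 := by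
          unfold ind
          rw [if_neg hx]
        have h5 := (hQ.tendsto N).comp (l2 hx)
        have h6 := ((h5.sub_const (Q N)).sub_const ((Q P - Q N) * ind p n x)).pow 2
        rw [h4] at h6
        have h7 : (Q N - Q N - (Q P - Q N) * 0) ^ 2 = 0 := by ring
        rw [h7] at h6
        rw [h4]
        exact h6
  rw [integral_zero] at key
  have h := (Real.continuous_sqrt.tendsto 0).comp key
  rw [Real.sqrt_zero] at h
  exact h

end Pool.Agent.DIF.H69
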