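import Pool.Agent.DIF.Stmts

/-!
# Squad DIF, row MID: two points to two antipodal points
-/

set_option autoImplicit false

open scoped InnerProductSpace Topology ContDiff Manifold
open MeasureTheory Filter Set

noncomputable section

namespace Pool.Agent.DIF.H69M

open Pool.Agent.Helper42_Paneitz Pool.Agent.Helper82_Vir Pool.Agent.FLX

theorem dif_act (smo : SmoStmt) (R : E5 ≃ₗᵢ[ℝ] E5) : Dif (act R) := by
  have h : ∀ T : E5 ≃ₗᵢ[ℝ] E5, ContMDiff (𝓡 4) (𝓡 4) ∞ (act T) := fun T =>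
    smo.1 (fun y => T y) (act T) (fun x => T.contDiff.contDiffAt) fun x => rfl
  refine smo.2.1 (act R) (act R.symm) (h R) (h R.symm) (fun x => ?_) fun x => ?_
  · apply Subtype.ext
    rw [act_coe, act_coe]
    exact R.apply_symm_apply _
  · apply Subtype.ext
    rw [act_coe, act_coe]
    exact R.symm_apply_apply _

/-- row MID -/
theorem mid (moa : MoaStmt) (smo : SmoStmt) (dmb : DmbStmt) : MidStmt := by
  intro P N P₁ P₂ hN hne
  have n1 : ‖(P₁ : E5)‖ = 1 := mem_sphere_zero_iff_norm.1 P₁.2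
  have n2 : ‖(P₂ : E5)‖ = 1 := mem_sphere_zero_iff_norm.1 P₂.2
  have n3 : ‖(P : E5)‖ = 1 := mem_sphere_zero_iff_norm.1 P.2
  have i1 : ⟪(P₁ : E5), (P₁ : E5)⟫_ℝ = 1 := by rw [real_inner_self_eq_norm_sq, n1]; norm_num
  have i2 : ⟪(P₂ : E5), (P₂ : E5)⟫_ℝ = 1 := by rw [real_inner_self_eq_norm_sq, n2]; norm_num
  have i12 : ⟪(P₂ : E5), (P₁ : E5)⟫_ℝ = ⟪(P₁ : E5), (P₂ : E5)⟫_ℝ := real_inner_comm _ _
  obtain ⟨b, hb⟩ : ∃ b : E5, b = (1 / 2 : ℝ) • ((P₁ : E5) + P₂) := ⟨_, rfl⟩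
  obtain ⟨d, hd⟩ : ∃ d : ℝ, d = ‖(P₁ : E5) - P₂‖ := ⟨_, rfl⟩
  have hd0 : 0 < d := by
    rw [hd, norm_pos_iff, sub_ne_zero]
    exact fun h => hne (Subtype.ext h)
  have hd2 : d ^ 2 = 2 - 2 * ⟪(P₁ : E5), (P₂ : E5)⟫_ℝ := by
    rw [hd, ← real_inner_self_eq_norm_sq, inner_sub_left, inner_sub_right, inner_sub_right, i1,
      i2, i12]
    ring
  have hb2 : ‖b‖ ^ 2 = 1 - (d / 2) ^ 2 := by
    rw [hb, ← real_inner_self_eq_norm_sq, inner_smul_left, inner_smul_right, inner_add_left,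
      inner_add_right, inner_add_right, i1, i2, i12, div_pow, hd2]
    simp only [conj_trivial]
    ring
  have hb1 : ‖b‖ < 1 := by
    have h1 : 0 < (d / 2) ^ 2 := by positivity
    nlinarith [norm_nonneg b]
  have hsq : Pool.Agent.FLX.sq b = d / 2 := by
    unfold Pool.Agent.FLX.sq
    rw [hb2, sub_sub_cancel, Real.sqrt_sq (by positivity)]
  obtain ⟨v, hv⟩ : ∃ v : E5, v = d⁻¹ • ((P₁ : E5) - P₂) := ⟨_, rfl⟩
  have hv1 : ‖v‖ = 1 := by
    rw [hv, norm_smul, ← hd, norm_inv, Real.norm_eq_abs, abs_of_pos hd0, inv_mul_cancel₀ hd0.ne']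
  have hbv : ⟪b, v⟫_ℝ = 0 := by
    rw [hb, hv, inner_smul_left, inner_smul_right, inner_sub_right, inner_add_left,
      inner_add_left, i1, i2, i12]
    ring
  have hdv : d • v = (P₁ : E5) - P₂ := by
    rw [hv, smul_smul, mul_inv_cancel₀ hd0.ne', one_smul]
  have m1 : mobE b v = P₁ := by
    unfold mobE
    rw [hbv, hsq]
    simp only [add_zero, inv_one, one_smul, zero_div]
    have h1 : (d / 2) • v = (1 / 2 : ℝ) • (d • v) := by rw [smul_smul]; congr 1; ring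
    rw [h1, hdv, hb, ← smul_add]
    have h2 : (P₁ : E5) - P₂ + (P₁ + P₂) = (2 : ℝ) • (P₁ : E5) := by rw [two_smul]; abel
    rw [h2, smul_smul]
    norm_num
  have m2 : mobE b (-v) = P₂ := by
    unfold mobE
    rw [inner_neg_right, hbv, hsq]
    simp only [add_zero, inv_one, one_smul, zero_div, neg_zero]
    have h1 : (d / 2) • -v = (1 / 2 : ℝ) • (-(d • v)) := by
      rw [smul_neg, smul_neg, smul_smul]; congr 2; ring
    rw [h1, hdv, hb, ← smul_add]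
    have h2 : -((P₁ : E5) - P₂) + (P₁ + P₂) = (2 : ℝ) • (P₂ : E5) := by rw [two_smul]; abel
    rw [h2, smul_smul]
    norm_num
  obtain ⟨R, hR⟩ : ∃ R : E5 ≃ₗᵢ[ℝ] E5, R (P : E5) = v :=
    ⟨(ℝ ∙ ((P : E5) - v))ᗮ.reflection, Submodule.reflection_sub (by rw [n3, hv1])⟩
  have hm := (moa b hb1).2.1
  refine ⟨fun x => mob b (act R x), smo.2.2.1 _ _ (dmb b hb1) (dif_act smo R), ?_, ?_⟩
  · apply Subtype.ext
    rw [hm, act_coe, hR, m1]
  · apply Subtype.ext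
    rw [hm, act_coe, hN, map_neg, hR, m2]

end Pool.Agent.DIF.H69M
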